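import Pool.Agent.H44.DV.Targets

set_option autoImplicit false

namespace Pool.Agent.H17.DV

open Pool.Agent.H44.DU

lemma rev_rev {n : ℕ} (S : Surf n) : S.rev.rev = S := by
  cases S
  simp [Surf.rev]

lemma tper_fwd (h : T_IO) {n : ℕ} (S : Surf n) (t : ℝ) {p : Side n × ℝ} (hp : p ∈ S.TPer t) :
    S.io t p ∈ S.rev.TPer t := by
  obtain ⟨m, y, ⟨hm, hy, hc⟩, rfl⟩ := hp
  refine ⟨m, fun k => S.io t (y (m - k)), ⟨hm, ?_, ?_⟩, ?_⟩
  · intro k hk
    have h1 := hy (m - (k + 1)) (by omega)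
    have h2 : m - (k + 1) + 1 = m - k := by omega
    rw [h2] at h1
    exact ((h n S t).2 _ _).1 h1
  · simp only [Nat.sub_self, Nat.sub_zero, hc]
  · simp only [Nat.sub_zero, hc]

lemma io_close {n : ℕ} (S : Surf n) (t : ℝ) {p q : Side n × ℝ} (hpq : p.1 = q.1) :
    |(S.io t p).2 - (S.io t q).2| = S.a q.1 * |p.2 - q.2| := by
  simp only [Surf.io, Surf.mv, hpq]
  rw [show -(S.a q.1 * p.2 + xi t (S.b q.1)) - -(S.a q.1 * q.2 + xi t (S.b q.1)) =
    -(S.a q.1 * (p.2 - q.2)) by ring, abs_neg, abs_mul, abs_of_pos (S.a_pos q.1)]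

lemma gl_inj {n : ℕ} (S : Surf n) {r s : Side n} (h : S.gl r = S.gl s) : r = s := by
  rw [← S.gl_gl r, h, S.gl_gl]

theorem pf_RR (h : T_IO) : D_RR := by
  intro n S t
  refine ⟨rev_rev S, ?_, ?_, ?_⟩
  · intro p
    refine ⟨fun hp => tper_fwd h S t hp, fun hp => ?_⟩
    have h1 := tper_fwd h S.rev t hp
    rw [(h n S t).1 p, rev_rev] at h1
    exact h1
  · intro y p
    have ha := S.a_pos p.1
    constructor
    · intro hA ε hε N
      obtain ⟨k, hk, h1, h2⟩ := hA (ε / S.a p.1) (div_pos hε ha) N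
      refine ⟨k, hk, ?_, ?_⟩
      · show S.gl (y k).1 = S.gl p.1
        rw [h1]
      · rw [io_close S t h1]
        rw [lt_div_iff₀ ha] at h2
        linarith
    · intro hA ε hε N
      obtain ⟨k, hk, h1, h2⟩ := hA (S.a p.1 * ε) (mul_pos ha hε) N
      have h3 : (y k).1 = p.1 := gl_inj S h1
      refine ⟨k, hk, h3, ?_⟩
      rw [io_close S t h3] at h2
      exact lt_of_mul_lt_mul_left h2 ha.le
  · intro r x
    exact (S.io_iff t r x).symm

end Pool.Agent.H17.DV
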